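import Mathlib

/-!
# Projections and outer parallel bodies of thin boxes
-/

set_option autoImplicit false

open MeasureTheory Set Filter Topology
open scoped Pointwise ENNReal

namespace Pool.Agent.Q157.BX

lemma vol_add_Icc {J : Set ℝ} (hc : IsCompact J) (hv : Convex ℝ J) (hn : J.Nonempty) {s : ℝ}
    (hs : 0 ≤ s) : volume (J + Icc 0 s) = volume J + ENNReal.ofReal s := by
  have h := eq_Icc_of_connected_compact ⟨hn, hv.isPreconnected⟩ hc
  have hle : sInf J ≤ sSup J := csInf_le_csSup hn hc.bddBelow hc.bddAbove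
  rw [h, Icc_add_Icc hle hs, Real.volume_Icc, Real.volume_Icc, ← ENNReal.ofReal_add
    (by linarith) hs]
  congr 1
  ring

section lemA

variable {F : Type*} [NormedAddCommGroup F] [NormedSpace ℝ F] [MeasurableSpace F] [BorelSpace F]
  [SecondCountableTopology F]

theorem lemA (μ : Measure F) [SFinite μ] {Q : Set (ℝ × F)} (hc : IsCompact Q) (hv : Convex ℝ Q)
    {s : ℝ} (hs : 0 ≤ s) :
    (volume.prod μ) (Q + (Icc 0 s) ×ˢ {(0 : F)}) =
      (volume.prod μ) Q + ENNReal.ofReal s * μ (Prod.snd '' Q) := by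
  have hc2 : IsCompact (Q + (Icc 0 s) ×ˢ {(0 : F)}) :=
    hc.add (isCompact_Icc.prod isCompact_singleton)
  have hm : MeasurableSet (Prod.snd '' Q) := (hc.image continuous_snd).measurableSet
  rw [Measure.prod_apply_symm hc2.measurableSet, Measure.prod_apply_symm hc.measurableSet,
    ← lintegral_indicator_const hm, ← lintegral_add_right _ (measurable_const.indicator hm)]
  refine lintegral_congr fun y => ?_
  by_cases hy : y ∈ Prod.snd '' Q
  · rw [indicator_of_mem hy]
    set J : Set ℝ := (fun x => (x, y)) ⁻¹' Q with hJ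
    have hJc : IsCompact J := by
      have h1 : IsClosed J := hc.isClosed.preimage (by fun_prop)
      have h2 : J ⊆ Prod.fst '' Q := fun x hx => ⟨(x, y), hx, rfl⟩
      exact (hc.image continuous_fst).of_isClosed_subset h1 h2
    have hJv : Convex ℝ J := by
      intro a ha b hb p q hp hq hpq
      have := hv ha hb hp hq hpq
      simp only [hJ, mem_preimage]
      convert this using 1
      ext <;> simp
      rw [← add_smul, hpq, one_smul]
    have hJn : J.Nonempty := by
      obtain ⟨z, hz, rfl⟩ := hy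
      exact ⟨z.1, hz⟩
    have e : (fun x => (x, y)) ⁻¹' (Q + (Icc 0 s) ×ˢ {(0 : F)}) = J + Icc 0 s := by
      ext x
      simp only [mem_preimage, Set.mem_add, mem_prod, mem_singleton_iff]
      constructor
      · rintro ⟨⟨a, b⟩, hab, ⟨c, d⟩, ⟨hc', hd⟩, h⟩
        simp only [Prod.mk_add_mk, Prod.mk.injEq] at h hd hc'
        obtain ⟨h1, h2⟩ := h
        rw [hd, add_zero] at h2
        subst h2
        exact ⟨a, hab, c, hc', h1⟩
      · rintro ⟨a, ha, c, hc', h⟩
        exact ⟨(a, y), ha, (c, 0), ⟨hc', rfl⟩, by simp [h]⟩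
    rw [e, vol_add_Icc hJc hJv hJn hs]
  · rw [indicator_of_notMem hy, add_zero]
    have e1 : (fun x : ℝ => (x, y)) ⁻¹' Q = ∅ := by
      ext x
      simp only [mem_preimage, mem_empty_iff_false, iff_false]
      exact fun hx => hy ⟨(x, y), hx, rfl⟩
    have e2 : (fun x : ℝ => (x, y)) ⁻¹' (Q + (Icc 0 s) ×ˢ {(0 : F)}) = ∅ := by
      ext x
      simp only [mem_preimage, mem_empty_iff_false, iff_false, Set.mem_add]
      rintro ⟨a, ha, c, hc', h⟩
      refine hy ⟨a, ha, ?_⟩
      have := congrArg Prod.snd h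
      have h3 : c.2 = 0 := hc'.2
      simpa [h3] using this
    rw [e1, e2]

end lemA

/-- a planar compact convex set plus a square -/
theorem sq {P : Set (ℝ × ℝ)} (hc : IsCompact P) (hv : Convex ℝ P) {R : ℝ}
    (hR : P ⊆ Icc (-R) R ×ˢ Icc (-R) R) (hR0 : 0 ≤ R) {s : ℝ} (hs : 0 ≤ s) :
    volume (P + Icc 0 s ×ˢ Icc 0 s) ≤
      volume P + ENNReal.ofReal (s * (2 * R) + s * (2 * R + s)) := by
  set P1 := P + (Icc 0 s) ×ˢ {(0 : ℝ)} with hP1
  have hc1 : IsCompact P1 := hc.add (isCompact_Icc.prod isCompact_singleton)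
  have hv1 : Convex ℝ P1 := hv.add ((convex_Icc _ _).prod (convex_singleton _))
  have h1 : volume P1 ≤ volume P + ENNReal.ofReal (s * (2 * R)) := by
    rw [hP1, Measure.volume_eq_prod, lemA volume hc hv hs]
    gcongr
    rw [ENNReal.ofReal_mul hs]
    gcongr
    calc volume (Prod.snd '' P) ≤ volume (Icc (-R) R) := by
          apply measure_mono
          rintro _ ⟨z, hz, rfl⟩
          exact (hR hz).2
      _ = ENNReal.ofReal (2 * R) := by rw [Real.volume_Icc]; congr 1; ring
  -- swap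
  have e : Prod.swap ⁻¹' (P + Icc 0 s ×ˢ Icc 0 s) = Prod.swap ⁻¹' P1 + (Icc 0 s) ×ˢ {(0 : ℝ)} := by
    ext ⟨x, y⟩
    simp only [mem_preimage, Set.mem_add, hP1, mem_prod, mem_singleton_iff, Prod.swap_prod_mk]
    constructor
    · rintro ⟨a, ha, c, ⟨hc1, hc2⟩, h⟩
      refine ⟨(a.2, a.1 + c.1), ⟨a, ha, (c.1, 0), ⟨hc1, rfl⟩, ?_⟩, (c.2, 0), ⟨hc2, rfl⟩, ?_⟩
      · ext <;> simp
      · have := congrArg Prod.fst h
        have h' := congrArg Prod.snd h
        simp only [Prod.fst_add, Prod.snd_add] at this h'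
        ext <;> simp [this, h']
    · rintro ⟨⟨q1, q2⟩, ⟨a, ha, c, ⟨hc1, hc2⟩, h⟩, ⟨d1, d2⟩, ⟨hd1, hd2⟩, h'⟩
      refine ⟨a, ha, (c.1, d1), ⟨hc1, hd1⟩, ?_⟩
      simp only [Prod.swap_prod_mk, Prod.mk_add_mk, Prod.mk.injEq] at h h' hd2 hd1
      obtain ⟨h3, h4⟩ := h'
      have h5 := congrArg Prod.fst h
      have h6 := congrArg Prod.snd h
      simp only [Prod.fst_add, Prod.snd_add] at h5 h6
      ext
      · simp; linarith
      · simp; linarith
  have hsw : MeasurePreserving (Prod.swap : ℝ × ℝ → ℝ × ℝ) volume volume :=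
    Measure.measurePreserving_swap
  have hcS : IsCompact (Prod.swap ⁻¹' P1) :=
    (Homeomorph.prodComm ℝ ℝ).isCompact_preimage.2 hc1
  have hvS : Convex ℝ (Prod.swap ⁻¹' P1) :=
    hv1.linear_preimage (LinearEquiv.prodComm ℝ ℝ ℝ : ℝ × ℝ →ₗ[ℝ] ℝ × ℝ)
  have hc2 : IsCompact (P + Icc 0 s ×ˢ Icc 0 s) := hc.add (isCompact_Icc.prod isCompact_Icc)
  rw [← hsw.measure_preimage hc2.measurableSet.nullMeasurableSet, e, Measure.volume_eq_prod,
    lemA volume hcS hvS hs, ← Measure.volume_eq_prod,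
    hsw.measure_preimage hc1.measurableSet.nullMeasurableSet]
  have h2 : volume (Prod.snd '' (Prod.swap ⁻¹' P1)) ≤ ENNReal.ofReal (2 * R + s) := by
    calc volume (Prod.snd '' (Prod.swap ⁻¹' P1)) ≤ volume (Icc (-R) (R + s)) := by
          apply measure_mono
          rintro _ ⟨⟨z1, z2⟩, hz, rfl⟩
          obtain ⟨a, ha, c, hc, h⟩ := hz
          have h5 := congrArg Prod.fst h
          simp only [Prod.fst_add, Prod.swap_prod_mk] at h5
          have h6 := (hR ha).1
          have h7 : c.1 ∈ Icc 0 s := hc.1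
          simp only
          rw [← h5]
          exact ⟨by linarith [h6.1, h7.1], by linarith [h6.2, h7.2]⟩
      _ = ENNReal.ofReal (2 * R + s) := by rw [Real.volume_Icc]; congr 1; ring
  calc volume P1 + ENNReal.ofReal s * volume (Prod.snd '' (Prod.swap ⁻¹' P1))
      ≤ (volume P + ENNReal.ofReal (s * (2 * R))) +
        ENNReal.ofReal s * ENNReal.ofReal (2 * R + s) := by gcongr
    _ = volume P + ENNReal.ofReal (s * (2 * R) + s * (2 * R + s)) := by
        rw [← ENNReal.ofReal_mul hs, add_assoc, ← ENNReal.ofReal_add (by positivity)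
          (by positivity)]

end Pool.Agent.Q157.BX
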