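import Pool.Agent.Q157.BX.A

set_option autoImplicit false

open MeasureTheory Set Filter Topology
open scoped Pointwise ENNReal

namespace Pool.Agent.Q157.BX

abbrev E3 := EuclideanSpace ℝ (Fin 3)

/-- coordinates -/
noncomputable def Psi : E3 ≃ₗ[ℝ] ℝ × (ℝ × ℝ) where
  toFun x := (x 0, (x 1, x 2))
  invFun p := WithLp.toLp 2 ![p.1, p.2.1, p.2.2]
  map_add' x y := rfl
  map_smul' c x := rfl
  left_inv x := by
    ext i
    fin_cases i <;> rfl
  right_inv p := rfl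

lemma Psi_app (x : E3) : Psi x = (x 0, (x 1, x 2)) := rfl

lemma Psi_cont : Continuous Psi :=
  LinearMap.continuous_of_finiteDimensional (Psi : E3 →ₗ[ℝ] ℝ × (ℝ × ℝ))

lemma Psi_symm_cont : Continuous Psi.symm :=
  LinearMap.continuous_of_finiteDimensional (Psi.symm : ℝ × (ℝ × ℝ) →ₗ[ℝ] E3)

lemma Psi_mp : MeasurePreserving Psi volume volume := by
  have h1 := PiLp.volume_preserving_ofLp (Fin 3)
  have h2 := volume_preserving_piFinSuccAbove (fun _ : Fin 3 => ℝ) 0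
  have h3 : MeasurePreserving (Prod.map id (MeasurableEquiv.finTwoArrow (α := ℝ)))
      (volume : Measure (ℝ × (Fin 2 → ℝ))) (volume : Measure (ℝ × (ℝ × ℝ))) :=
    (MeasurePreserving.id volume).prod (volume_preserving_finTwoArrow ℝ)
  exact h3.comp (h2.comp h1)

lemma Psi_emb : MeasurableEmbedding Psi := by
  have : MeasurableEmbedding
      (Psi.toContinuousLinearEquiv.toHomeomorph : E3 → ℝ × (ℝ × ℝ)) :=
    Homeomorph.measurableEmbedding _
  exact this

lemma vol_Psi (X : Set E3) : volume (Psi '' X) = volume X := by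
  rw [← Psi_mp.measure_preimage_emb Psi_emb, preimage_image_eq _ Psi.injective]

lemma Psi_add (X Y : Set E3) : Psi '' (X + Y) = Psi '' X + Psi '' Y := by
  exact Set.image_add Psi

/-- the first basis vector -/
noncomputable def e0 : E3 := EuclideanSpace.single 0 1

lemma inner_e0 (x : E3) : inner ℝ e0 x = x 0 := by
  unfold e0
  rw [EuclideanSpace.inner_single_left]
  simp

lemma Psi_e0 : Psi e0 = (1, (0, 0)) := by
  rw [Psi_app]
  simp [e0]

/-- the projection to the orthogonal complement of `u` -/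
noncomputable def pr (u : E3) (K : Set E3) : Set E3 := (fun x : E3 => x - (inner ℝ u x) • u) '' K

/-- the shadow in coordinates -/
def sh (K : Set E3) : Set (ℝ × ℝ) := Prod.snd '' (Psi '' K)

lemma Psi_pr (K : Set E3) : Psi '' (pr e0 K) = {(0:ℝ)} ×ˢ sh K := by
  ext ⟨a, b⟩
  constructor
  · rintro ⟨_, ⟨x, hx, rfl⟩, h⟩
    simp only [map_sub, map_smul, inner_e0, Psi_e0] at h
    rw [Psi_app, Prod.ext_iff] at h
    refine ⟨?_, ?_⟩
    · rw [mem_singleton_iff, ← h.1]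
      simp
    · refine ⟨Psi x, ⟨x, hx, rfl⟩, ?_⟩
      rw [← h.2]
      simp [Psi_app]
  · rintro ⟨ha, ⟨_, ⟨x, hx, rfl⟩, h⟩⟩
    refine ⟨_, ⟨x, hx, rfl⟩, ?_⟩
    simp only [map_sub, map_smul, inner_e0, Psi_e0]
    simp only [mem_singleton_iff] at ha
    simp only at h
    rw [ha, ← h]
    ext <;> simp [Psi_app]

lemma Psi_seg : Psi '' (segment ℝ 0 e0) = Icc (0:ℝ) 1 ×ˢ {(0 : ℝ × ℝ)} := by
  have h1 : Psi '' (segment ℝ 0 e0) = segment ℝ (Psi 0) (Psi e0) :=
    image_segment ℝ (Psi : E3 →ₗ[ℝ] ℝ × (ℝ × ℝ)).toAffineMap 0 e0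
  rw [h1, map_zero, Psi_e0]
  ext ⟨a, b⟩
  rw [segment_eq_image']
  constructor
  · rintro ⟨t, ht, h⟩
    simp only [sub_zero, zero_add, Prod.smul_mk, smul_eq_mul, mul_one, smul_zero, mul_zero] at h
    rw [Prod.mk.injEq] at h
    exact ⟨by rw [← h.1]; exact ht, by rw [mem_singleton_iff, ← h.2]; rfl⟩
  · rintro ⟨ha, hb⟩
    refine ⟨a, ha, ?_⟩
    simp only [mem_singleton_iff] at hb
    simp only at ha hb
    rw [hb]
    simp

section body

variable {K : Set E3} (hc : IsCompact K) (hv : Convex ℝ K)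

include hc in
lemma sh_cpt : IsCompact (sh K) := (hc.image Psi_cont).image continuous_snd

include hv in
lemma sh_cvx : Convex ℝ (sh K) :=
  (hv.linear_image (Psi : E3 →ₗ[ℝ] ℝ × (ℝ × ℝ))).linear_image (LinearMap.snd ℝ ℝ (ℝ × ℝ))

include hc hv in
lemma vol_seg : volume (K + segment ℝ 0 e0) = volume K + volume (sh K) := by
  rw [← vol_Psi, Psi_add, Psi_seg, Measure.volume_eq_prod,
    lemA volume (hc.image Psi_cont) (hv.linear_image (Psi : E3 →ₗ[ℝ] ℝ × (ℝ × ℝ))) zero_le_one,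
    ← Measure.volume_eq_prod, vol_Psi, ENNReal.ofReal_one, one_mul]
  rfl

lemma coord_le {x : E3} {R : ℝ} (hx : x ∈ Metric.closedBall (0 : E3) R) (i : Fin 3) :
    |x i| ≤ R := by
  rw [mem_closedBall_zero_iff] at hx
  exact (PiLp.norm_apply_le x i).trans hx

lemma sh_sub {R : ℝ} (hR : K ⊆ Metric.closedBall 0 R) : sh K ⊆ Icc (-R) R ×ˢ Icc (-R) R := by
  rintro _ ⟨_, ⟨x, hx, rfl⟩, rfl⟩
  exact ⟨abs_le.1 (coord_le (hR hx) 1), abs_le.1 (coord_le (hR hx) 2)⟩

lemma vol_le {R : ℝ} (hR : K ⊆ Metric.closedBall 0 R) :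
    volume K ≤ ENNReal.ofReal (2 * R) * volume (sh K) := by
  rw [← vol_Psi]
  calc volume (Psi '' K) ≤ volume (Icc (-R) R ×ˢ sh K) := by
        apply measure_mono
        rintro _ ⟨x, hx, rfl⟩
        exact ⟨abs_le.1 (coord_le (hR hx) 0), ⟨_, ⟨x, hx, rfl⟩, rfl⟩⟩
    _ = _ := by
        rw [Measure.volume_eq_prod, Measure.prod_prod, Real.volume_Icc]
        congr 2
        ring

lemma sh_fst_le {R : ℝ} (hR : K ⊆ Metric.closedBall 0 R) :
    volume (sh K) ≤ ENNReal.ofReal (2 * R) * volume (Prod.snd '' sh K) := by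
  calc volume (sh K) ≤ volume (Icc (-R) R ×ˢ (Prod.snd '' sh K)) := by
        apply measure_mono
        intro z hz
        exact ⟨(sh_sub hR hz).1, ⟨z, hz, rfl⟩⟩
    _ = _ := by
        rw [Measure.volume_eq_prod, Measure.prod_prod, Real.volume_Icc]
        congr 2
        ring

lemma norm_sq3 (x : E3) : ‖x‖ ^ 2 = x 0 ^ 2 + x 1 ^ 2 + x 2 ^ 2 := by
  rw [EuclideanSpace.norm_sq_eq, Fin.sum_univ_three]
  simp [sq_abs]

lemma mem_Psi_ball {t : ℝ} (ht : 0 ≤ t) {a b c : ℝ} (h : a ^ 2 + b ^ 2 + c ^ 2 ≤ t ^ 2) :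
    (a, (b, c)) ∈ Psi '' Metric.closedBall (0 : E3) t := by
  refine ⟨WithLp.toLp 2 ![a, b, c], ?_, rfl⟩
  rw [mem_closedBall_zero_iff]
  apply abs_le_of_sq_le_sq' _ ht |>.2
  rw [norm_sq3]
  simpa using h

include hc in
/-- upper bound for the outer parallel body of the projection -/
lemma upper {R : ℝ} (hR : K ⊆ Metric.closedBall 0 R) (hR0 : 0 ≤ R) (hv : Convex ℝ K) {t : ℝ}
    (ht : 0 ≤ t) :
    volume (pr e0 K + Metric.closedBall 0 t) ≤
      ENNReal.ofReal (2 * t) * (volume (sh K) + ENNReal.ofReal (8 * R * t + 4 * t ^ 2)) := by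
  rw [← vol_Psi, Psi_add, Psi_pr]
  have hsub : {(0:ℝ)} ×ˢ sh K + Psi '' Metric.closedBall (0 : E3) t ⊆
      Icc (-t) t ×ˢ ((fun z : ℝ × ℝ => z + (-t, -t)) '' (sh K + Icc 0 (2 * t) ×ˢ Icc 0 (2 * t))) := by
    rintro _ ⟨⟨a, p⟩, ⟨ha, hp⟩, _, ⟨y, hy, rfl⟩, rfl⟩
    have h0 := abs_le.1 (coord_le hy 0)
    have h1 := abs_le.1 (coord_le hy 1)
    have h2 := abs_le.1 (coord_le hy 2)
    simp only [mem_singleton_iff] at ha
    simp only at hp
    subst ha
    refine ⟨?_, ?_⟩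
    · simp only [Psi_app, Prod.mk_add_mk, zero_add]
      exact h0
    · refine ⟨p + (y 1 + t, y 2 + t), ⟨p, hp, (y 1 + t, y 2 + t), ⟨⟨by linarith, by linarith⟩,
        ⟨by linarith, by linarith⟩⟩, rfl⟩, ?_⟩
      simp only [Psi_app, Prod.mk_add_mk]
      ext
      · simp only [Prod.fst_add]; ring
      · simp only [Prod.snd_add]; ring
  refine (measure_mono hsub).trans ?_
  rw [Measure.volume_eq_prod, Measure.prod_prod, Real.volume_Icc]
  have e1 : volume ((fun z : ℝ × ℝ => z + (-t, -t)) '' (sh K + Icc 0 (2 * t) ×ˢ Icc 0 (2 * t))) =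
      volume (sh K + Icc 0 (2 * t) ×ˢ Icc 0 (2 * t)) := by
    rw [image_add_right, measure_preimage_add_right]
  rw [e1]
  have h2 := sq (sh_cpt hc) (sh_cvx hv) (sh_sub hR) hR0 (s := 2 * t) (by linarith)
  have e2 : 2 * t * (2 * R) + 2 * t * (2 * R + 2 * t) = 8 * R * t + 4 * t ^ 2 := by ring
  rw [e2] at h2
  have e3 : t - -t = 2 * t := by ring
  rw [e3]
  gcongr

include hc in
/-- lower bound for the outer parallel body of the projection -/
lemma lower (hv : Convex ℝ K) {t : ℝ} (ht : 0 < t) :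
    ENNReal.ofReal t * (volume (sh K) + ENNReal.ofReal t * volume (Prod.snd '' sh K)) +
      ENNReal.ofReal t * volume (sh K) ≤
    volume (pr e0 K + Metric.closedBall 0 t) := by
  rw [← vol_Psi, Psi_add, Psi_pr]
  set Q : Set (ℝ × ℝ) := (fun z : ℝ × ℝ => z + (-(t / 2), 0)) '' (sh K + Icc 0 t ×ˢ {(0:ℝ)}) with hQ
  have hQv : volume Q = volume (sh K) + ENNReal.ofReal t * volume (Prod.snd '' sh K) := by
    rw [hQ, image_add_right, measure_preimage_add_right, Measure.volume_eq_prod,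
      lemA volume (sh_cpt hc) (sh_cvx hv) ht.le]
  have hQc : IsCompact Q :=
    ((sh_cpt hc).add (isCompact_Icc.prod isCompact_singleton)).image (by fun_prop)
  set U1 : Set (ℝ × (ℝ × ℝ)) := Icc (-(t / 2)) (t / 2) ×ˢ Q with hU1
  set J : Set ℝ := Ico (-t) (-(t / 2)) ∪ Ioc (t / 2) t with hJ
  set U2 : Set (ℝ × (ℝ × ℝ)) := J ×ˢ sh K with hU2
  have hJv : volume J = ENNReal.ofReal t := by
    rw [hJ, measure_union _ measurableSet_Ioc, Real.volume_Ico, Real.volume_Ioc,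
      ← ENNReal.ofReal_add (by linarith) (by linarith)]
    · congr 1
      ring
    · rw [Set.disjoint_left]
      rintro x ⟨_, h1⟩ ⟨h2, _⟩
      linarith
  have hv1 : volume U1 = ENNReal.ofReal t *
      (volume (sh K) + ENNReal.ofReal t * volume (Prod.snd '' sh K)) := by
    rw [hU1, Measure.volume_eq_prod, Measure.prod_prod, Real.volume_Icc, hQv]
    congr 2
    ring
  have hv2 : volume U2 = ENNReal.ofReal t * volume (sh K) := by
    rw [hU2, Measure.volume_eq_prod, Measure.prod_prod, hJv]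
  have hdisj : Disjoint U1 U2 := by
    rw [Set.disjoint_left]
    rintro ⟨a, p⟩ ⟨h1, _⟩ ⟨h2, _⟩
    simp only at h1 h2
    rcases h2 with h2 | h2
    · exact absurd h1.1 (not_le.2 h2.2)
    · exact absurd h1.2 (not_le.2 h2.1)
  have hm2 : MeasurableSet U2 :=
    (measurableSet_Ico.union measurableSet_Ioc).prod (sh_cpt hc).measurableSet
  rw [← hv1, ← hv2, ← measure_union hdisj hm2]
  apply measure_mono
  rintro ⟨a, p⟩ (⟨h1, h2⟩ | ⟨h1, h2⟩)
  · obtain ⟨_, ⟨q, hq, ⟨b, c⟩, ⟨hb, hc'⟩, rfl⟩, hp⟩ := h2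
    simp only [mem_singleton_iff] at hc'
    simp only at h1 hb hp
    subst hc'
    refine ⟨(0, q), ⟨rfl, hq⟩, (a, (b - t / 2, 0)), mem_Psi_ball ht.le ?_, ?_⟩
    · have h3 : a ^ 2 ≤ (t / 2) ^ 2 := sq_le_sq' h1.1 h1.2
      have h4 : (b - t / 2) ^ 2 ≤ (t / 2) ^ 2 :=
        sq_le_sq' (by linarith [hb.1]) (by linarith [hb.2])
      nlinarith
    · rw [← hp]
      ext <;> simp
      ring
  · simp only at h1 h2
    refine ⟨(0, p), ⟨rfl, h2⟩, (a, (0, 0)), mem_Psi_ball ht.le ?_, by simp⟩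
    have h3 : a ∈ Icc (-t) t := by
      rcases h1 with h1 | h1
      · exact ⟨h1.1, by linarith [h1.2]⟩
      · exact ⟨by linarith [h1.1], h1.2⟩
    have := sq_le_sq' h3.1 h3.2
    simpa using this

end body

end Pool.Agent.Q157.BX
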