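import Pool.Agent.Q157.BX.B

set_option autoImplicit false

open MeasureTheory Set Filter Topology
open scoped Pointwise ENNReal

namespace Pool.Agent.Q157.BX

theorem key {K : Set E3} (hc : IsCompact K) (hv : Convex ℝ K) {R : ℝ}
    (hR : K ⊆ Metric.closedBall 0 R) (hR0 : 0 < R) (hpos : 0 < volume K) {u : E3}
    (hu : ‖u‖ = 1) :
    ∃ A w : ℝ, 0 < A ∧ 0 < w ∧
      (volume (K + segment ℝ 0 u)).toReal - (volume K).toReal = A ∧
      (volume K).toReal ≤ 2 * R * A ∧
      ∀ t : ℝ, 0 < t →
        2 * t * A + w * t ^ 2 ≤ (volume (pr u K + Metric.closedBall 0 t)).toReal ∧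
        (volume (pr u K + Metric.closedBall 0 t)).toReal ≤
          2 * t * (A + (8 * R * t + 4 * t ^ 2)) := by
  have hn : ‖u‖ = ‖e0‖ := by rw [hu, e0, EuclideanSpace.norm_single]; simp
  set ρ : E3 ≃ₗᵢ[ℝ] E3 := (ℝ ∙ (u - e0))ᗮ.reflection with hρ
  have hρu : ρ u = e0 := Submodule.reflection_sub hn
  have hvolρ : ∀ X : Set E3, volume (ρ '' X) = volume X := by
    intro X
    have h1 : MeasurePreserving ρ volume volume := ρ.measurePreserving
    have h2 : MeasurableEmbedding ρ := ρ.toHomeomorph.measurableEmbedding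
    rw [← h1.measure_preimage_emb h2, preimage_image_eq _ ρ.injective]
  set K' := ρ '' K with hK'
  have hc' : IsCompact K' := hc.image ρ.continuous
  have hv' : Convex ℝ K' := hv.linear_image (ρ.toLinearEquiv : E3 →ₗ[ℝ] E3)
  have hR' : K' ⊆ Metric.closedBall 0 R := by
    rintro _ ⟨x, hx, rfl⟩
    have := hR hx
    rw [mem_closedBall_zero_iff] at this ⊢
    rwa [ρ.norm_map]
  have hpos' : 0 < volume K' := by rw [hK', hvolρ]; exact hpos
  have eseg : ρ '' (K + segment ℝ 0 u) = K' + segment ℝ 0 e0 := by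
    rw [Set.image_add ρ]
    congr 1
    have h1 : ρ '' (segment ℝ 0 u) = segment ℝ (ρ 0) (ρ u) :=
      image_segment ℝ (ρ.toLinearEquiv : E3 →ₗ[ℝ] E3).toAffineMap 0 u
    rw [h1, map_zero, hρu]
  have epr : ∀ t : ℝ, ρ '' (pr u K + Metric.closedBall 0 t) = pr e0 K' + Metric.closedBall 0 t := by
    intro t
    rw [Set.image_add ρ]
    congr 1
    · unfold pr
      rw [image_image, hK', image_image]
      refine image_congr fun x _ => ?_
      rw [map_sub, map_smul, hρu, ← hρu, ρ.inner_map_map]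
    · rw [LinearIsometryEquiv.image_closedBall, map_zero]
  have hKt : volume K ≠ ⊤ := hc.measure_lt_top.ne
  have hst : volume (sh K') ≠ ⊤ := (sh_cpt hc').measure_lt_top.ne
  have hwt : volume (Prod.snd '' sh K') ≠ ⊤ := ((sh_cpt hc').image continuous_snd).measure_lt_top.ne
  have hs0 : 0 < volume (sh K') := by
    by_contra hcon
    have h0 : volume (sh K') = 0 := by simpa using hcon
    have := vol_le hR'
    rw [h0, mul_zero] at this
    exact absurd hpos' (not_lt.2 this)
  have hw0 : 0 < volume (Prod.snd '' sh K') := by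
    by_contra hcon
    have h0 : volume (Prod.snd '' sh K') = 0 := by simpa using hcon
    have := sh_fst_le hR'
    rw [h0, mul_zero] at this
    exact absurd hs0 (not_lt.2 this)
  refine ⟨(volume (sh K')).toReal, (volume (Prod.snd '' sh K')).toReal,
    ENNReal.toReal_pos hs0.ne' hst, ENNReal.toReal_pos hw0.ne' hwt, ?_, ?_, fun t ht => ?_⟩
  · rw [← hvolρ (K + segment ℝ 0 u), eseg, vol_seg hc' hv', ENNReal.toReal_add
      (hc'.measure_lt_top.ne) hst, hK', hvolρ]
    ring
  · have h1 := vol_le hR'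
    rw [hK', hvolρ, ← hK'] at h1
    have h2 := ENNReal.toReal_mono (ENNReal.mul_ne_top ENNReal.ofReal_ne_top hst) h1
    rwa [ENNReal.toReal_mul, ENNReal.toReal_ofReal (by positivity)] at h2
  · rw [← hvolρ (pr u K + Metric.closedBall 0 t), epr]
    have h1 := lower hc' hv' ht
    have h2 := upper hc' hR' hR0.le hv' ht.le
    have h3 : volume (pr e0 K' + Metric.closedBall 0 t) ≠ ⊤ :=
      ne_top_of_le_ne_top (ENNReal.mul_ne_top ENNReal.ofReal_ne_top
        (ENNReal.add_ne_top.2 ⟨hst, ENNReal.ofReal_ne_top⟩)) h2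
    constructor
    · have h4 := ENNReal.toReal_mono h3 h1
      have e5 : (ENNReal.ofReal t * (volume (sh K') +
          ENNReal.ofReal t * volume (Prod.snd '' sh K')) + ENNReal.ofReal t * volume (sh K')).toReal =
          2 * t * (volume (sh K')).toReal + (volume (Prod.snd '' sh K')).toReal * t ^ 2 := by
        rw [ENNReal.toReal_add (ENNReal.mul_ne_top ENNReal.ofReal_ne_top
          (ENNReal.add_ne_top.2 ⟨hst, ENNReal.mul_ne_top ENNReal.ofReal_ne_top hwt⟩))
          (ENNReal.mul_ne_top ENNReal.ofReal_ne_top hst), ENNReal.toReal_mul, ENNReal.toReal_mul,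
          ENNReal.toReal_add hst (ENNReal.mul_ne_top ENNReal.ofReal_ne_top hwt),
          ENNReal.toReal_mul, ENNReal.toReal_ofReal ht.le]
        ring
      rwa [e5] at h4
    · have h4 := ENNReal.toReal_mono (ENNReal.mul_ne_top ENNReal.ofReal_ne_top
        (ENNReal.add_ne_top.2 ⟨hst, ENNReal.ofReal_ne_top⟩)) h2
      rwa [ENNReal.toReal_mul, ENNReal.toReal_add hst ENNReal.ofReal_ne_top,
        ENNReal.toReal_ofReal (by positivity), ENNReal.toReal_ofReal (by positivity)] at h4

/-- the consequence for the limit -/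
theorem limit {K : Set E3} (hc : IsCompact K) (hv : Convex ℝ K) {R : ℝ}
    (hR : K ⊆ Metric.closedBall 0 R) (hR0 : 0 < R) (hpos : 0 < volume K) {u : E3}
    (hu : ‖u‖ = 1) {L : ℝ}
    (hL : Tendsto (fun t : ℝ => ((volume (pr u K + Metric.closedBall 0 t)).toReal -
      2 * t * ((volume (K + segment ℝ 0 u)).toReal - (volume K).toReal)) / (Real.pi * t ^ 2))
      (𝓝[>] 0) (𝓝 L)) :
    Real.pi * ((volume K).toReal / (2 * R)) / (16 * R / Real.pi) ^ 2 ≤
      Real.pi * ((volume (K + segment ℝ 0 u)).toReal - (volume K).toReal) / L ^ 2 := by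
  obtain ⟨A, w, hA, hw, hAe, hAv, hb⟩ := key hc hv hR hR0 hpos hu
  rw [hAe] at hL ⊢
  have hpi := Real.pi_pos
  have hL1 : w / Real.pi ≤ L := by
    refine ge_of_tendsto hL ?_
    filter_upwards [self_mem_nhdsWithin] with t ht
    have ht' : 0 < t := ht
    have h1 := (hb t ht').1
    rw [div_le_div_iff₀ hpi (by positivity)]
    nlinarith
  have hup : Tendsto (fun t : ℝ => (16 * R + 8 * t) / Real.pi) (𝓝[>] 0)
      (𝓝 ((16 * R + 8 * 0) / Real.pi)) := by
    apply Tendsto.mono_left _ nhdsWithin_le_nhds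
    apply Continuous.tendsto
    fun_prop
  have hL2 : L ≤ (16 * R + 8 * 0) / Real.pi := by
    refine le_of_tendsto_of_tendsto hL hup ?_
    filter_upwards [self_mem_nhdsWithin] with t ht
    have ht' : 0 < t := ht
    have h1 := (hb t ht').2
    rw [div_le_div_iff₀ (by positivity) hpi]
    nlinarith
  rw [mul_zero, add_zero] at hL2
  have hL0 : 0 < L := lt_of_lt_of_le (by positivity) hL1
  have h3 : (volume K).toReal / (2 * R) ≤ A := by
    rw [div_le_iff₀ (by positivity)]
    linarith
  have h4 : 0 ≤ (volume K).toReal := ENNReal.toReal_nonneg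
  gcongr

end Pool.Agent.Q157.BX
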