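import Pool.Agent.Q157.BX.C

set_option autoImplicit false

open MeasureTheory Set Filter Topology
open scoped Pointwise ENNReal

namespace Pool.Agent.Q157.BX

/-- products of sets of reals -/
def box (J : Fin 3 → Set ℝ) : Set E3 := {x | ∀ i, x i ∈ J i}

lemma vol_box (J : Fin 3 → Set ℝ) : volume (box J) = ∏ i, volume (J i) := by
  have hmp := PiLp.volume_preserving_ofLp (Fin 3)
  have hm : MeasurableEmbedding (WithLp.ofLp : E3 → (Fin 3 → ℝ)) :=
    (MeasurableEquiv.toLp 2 (Fin 3 → ℝ)).symm.measurableEmbedding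
  have e : box J = (WithLp.ofLp : E3 → (Fin 3 → ℝ)) ⁻¹' (univ.pi J) := by
    ext x
    simp [box, Set.mem_pi]
  rw [e, hmp.measure_preimage_emb hm, volume_pi_pi]

/-- the side lengths -/
def len (h : ℝ) : Fin 3 → ℝ := ![1, 1, h]

/-- the box -/
def bx (h : ℝ) : Set E3 := box fun i => Icc 0 (len h i)

lemma len_pos {h : ℝ} (hh : 0 < h) (i : Fin 3) : 0 < len h i := by
  fin_cases i <;> simp [len, hh]

lemma vol_bx {h : ℝ} (hh : 0 < h) : volume (bx h) = ENNReal.ofReal h := by
  unfold bx
  rw [vol_box, Fin.prod_univ_three]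
  simp [len, Real.volume_Icc]

lemma bx_sub {h : ℝ} (h1 : h ≤ 1) : bx h ⊆ Metric.closedBall 0 2 := by
  intro x hx
  rw [mem_closedBall_zero_iff]
  apply abs_le_of_sq_le_sq' _ (by norm_num : (0:ℝ) ≤ 2) |>.2
  rw [norm_sq3]
  have a0 := hx 0
  have a1 := hx 1
  have a2 := hx 2
  simp only [len] at a0 a1 a2
  have b0 : 0 ≤ x 0 ∧ x 0 ≤ 1 := a0
  have b1 : 0 ≤ x 1 ∧ x 1 ≤ 1 := a1
  have b2 : 0 ≤ x 2 ∧ x 2 ≤ h := a2
  nlinarith

lemma bx_convex (h : ℝ) : Convex ℝ (bx h) := by
  intro x hx y hy a b ha hb hab i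
  exact (convex_Icc _ _) (hx i) (hy i) ha hb hab

lemma bx_closed (h : ℝ) : IsClosed (bx h) := by
  have : bx h = ⋂ i, {x : E3 | x i ∈ Icc 0 (len h i)} := by
    ext x; simp [bx, box]
  rw [this]
  refine isClosed_iInter fun i => isClosed_Icc.preimage ?_
  fun_prop

lemma bx_compact {h : ℝ} (h1 : h ≤ 1) : IsCompact (bx h) :=
  (isCompact_closedBall _ _).of_isClosed_subset (bx_closed h) (bx_sub h1)

lemma bx_interior {h : ℝ} (hh : 0 < h) : (interior (bx h)).Nonempty := by
  by_contra hcon
  rw [not_nonempty_iff_eq_empty] at hcon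
  have h1 : volume (bx h) = 0 := by
    have h2 : bx h ⊆ frontier (bx h) := by
      rw [(bx_closed h).frontier_eq, hcon, sdiff_empty]
    exact measure_mono_null h2 ((bx_convex h).addHaar_frontier volume)
  rw [vol_bx hh] at h1
  simp at h1
  linarith

lemma up {h t : ℝ} (hh : 0 < h) (ht : 0 < t) :
    volume (bx h + Metric.closedBall 0 t) ≤ ENNReal.ofReal ((1 + 2 * t) ^ 2 * (h + 2 * t)) := by
  have hsub : bx h + Metric.closedBall 0 t ⊆ box fun i => Icc (-t) (len h i + t) := by
    rintro _ ⟨x, hx, y, hy, rfl⟩ i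
    have h1 := abs_le.1 (coord_le hy i)
    have h2 := hx i
    exact ⟨by simp only [PiLp.add_apply]; linarith [h2.1], by
      simp only [PiLp.add_apply]; linarith [h2.2]⟩
  refine (measure_mono hsub).trans ?_
  rw [vol_box, Fin.prod_univ_three]
  simp only [Real.volume_Icc]
  rw [← ENNReal.ofReal_mul (by simp [len]; linarith), ← ENNReal.ofReal_mul (by
    have : 0 ≤ len h 0 + t - -t := by simp [len]; linarith
    have : 0 ≤ len h 1 + t - -t := by simp [len]; linarith
    positivity)]
  apply ENNReal.ofReal_le_ofReal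
  simp only [len]
  simp
  ring_nf
  rfl

/-- the union of the two short intervals -/
def jj (l t : ℝ) : Set ℝ := Ico (-t) 0 ∪ Ioc l (l + t)

lemma vol_jj {l t : ℝ} (hl : 0 < l) (ht : 0 < t) : volume (jj l t) = ENNReal.ofReal (2 * t) := by
  unfold jj
  rw [measure_union _ measurableSet_Ioc, Real.volume_Ico, Real.volume_Ioc,
    ← ENNReal.ofReal_add (by linarith) (by linarith)]
  · congr 1; ring
  · rw [Set.disjoint_left]
    rintro x ⟨_, h1⟩ ⟨h2, _⟩
    linarith

/-- the slabs -/
def slab (h t : ℝ) (i : Fin 3) : Set E3 :=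
  box fun j => if j = i then jj (len h i) t else Icc 0 (len h j)

lemma jj_meas (l t : ℝ) : MeasurableSet (jj l t) := measurableSet_Ico.union measurableSet_Ioc

lemma jj_disj {l t x : ℝ} (hx : x ∈ Icc 0 l) : x ∉ jj l t := by
  rintro (h | h)
  · linarith [hx.1, h.2]
  · linarith [hx.2, h.1]

lemma slab_meas (h t : ℝ) (i : Fin 3) : MeasurableSet (slab h t i) := by
  have : slab h t i = ⋂ j, {x : E3 | x j ∈ if j = i then jj (len h i) t else Icc 0 (len h j)} := by
    ext x; simp [slab, box]
  rw [this]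
  refine MeasurableSet.iInter fun j => ?_
  have hm : Measurable fun x : E3 => x j := by fun_prop
  refine hm ?_
  split_ifs
  · exact jj_meas _ _
  · exact measurableSet_Icc

lemma slab_sub {h t : ℝ} (hh : 0 < h) (i : Fin 3) :
    slab h t i ⊆ bx h + Metric.closedBall 0 t := by
  intro x hx
  have hl := (len_pos hh i).le
  have hi : x i ∈ jj (len h i) t := by
    have := hx i
    simpa using this
  obtain ⟨c, hc, hct⟩ : ∃ c : ℝ, |c| ≤ t ∧ x i - c ∈ Icc 0 (len h i) := by
    rcases hi with hi | hi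
    · exact ⟨x i, abs_le.2 ⟨hi.1, by linarith [hi.2, hi.1]⟩, by simp [hl]⟩
    · exact ⟨x i - len h i, abs_le.2 ⟨by linarith [hi.1, hi.2], by linarith [hi.2]⟩, by simp [hl]⟩
  refine ⟨x - EuclideanSpace.single i c, ?_, EuclideanSpace.single i c, ?_, by simp⟩
  · intro j
    by_cases hj : j = i
    · subst hj
      simpa using hct
    · have := hx j
      simp only [hj, if_false] at this
      simpa [hj] using this
  · rw [mem_closedBall_zero_iff]
    simpa using hc

lemma slab_vol {h t : ℝ} (hh : 0 < h) (ht : 0 < t) :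
    volume (slab h t 0) = ENNReal.ofReal (2 * t * h) ∧
    volume (slab h t 1) = ENNReal.ofReal (2 * t * h) ∧
    volume (slab h t 2) = ENNReal.ofReal (2 * t) := by
  have h2t : 0 ≤ 2 * t := by linarith
  have w1 := vol_jj (l := 1) one_pos ht
  have w2 := vol_jj hh ht
  refine ⟨?_, ?_, ?_⟩
  all_goals
    unfold slab
    rw [vol_box, Fin.prod_univ_three]
    simp [w1, w2, Real.volume_Icc, len, ENNReal.ofReal_mul h2t]

lemma slab_disj {h t : ℝ} {i j : Fin 3} (hij : i ≠ j) : Disjoint (slab h t i) (slab h t j) := by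
  rw [Set.disjoint_left]
  intro x hi hj
  have h1 : x i ∈ jj (len h i) t := by simpa using hi i
  have h2 : x i ∈ Icc 0 (len h i) := by simpa [hij] using hj i
  exact jj_disj h2 h1

lemma bx_slab_disj {h t : ℝ} (i : Fin 3) : Disjoint (bx h) (slab h t i) := by
  rw [Set.disjoint_left]
  intro x hx hi
  have h1 : x i ∈ jj (len h i) t := by simpa using hi i
  exact jj_disj (hx i) h1

lemma low {h t : ℝ} (hh : 0 < h) (ht : 0 < t) :
    ENNReal.ofReal (h + 2 * t * (1 + 2 * h)) ≤ volume (bx h + Metric.closedBall 0 t) := by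
  obtain ⟨v0, v1, v2⟩ := slab_vol hh ht
  have hsub : bx h ∪ slab h t 0 ∪ slab h t 1 ∪ slab h t 2 ⊆ bx h + Metric.closedBall 0 t := by
    refine union_subset (union_subset (union_subset ?_ (slab_sub hh 0)) (slab_sub hh 1))
      (slab_sub hh 2)
    intro x hx
    exact ⟨x, hx, 0, Metric.mem_closedBall_self ht.le, add_zero x⟩
  refine le_trans (le_of_eq ?_) (measure_mono hsub)
  rw [measure_union (Disjoint.union_left (Disjoint.union_left (bx_slab_disj 2)
      (slab_disj (by decide))) (slab_disj (by decide))) (slab_meas h t 2),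
    measure_union (Disjoint.union_left (bx_slab_disj 1) (slab_disj (by decide)))
      (slab_meas h t 1),
    measure_union (bx_slab_disj 0) (slab_meas h t 0), v0, v1, v2, vol_bx hh,
    ← ENNReal.ofReal_add (by positivity) (by positivity),
    ← ENNReal.ofReal_add (by positivity) (by positivity),
    ← ENNReal.ofReal_add (by positivity) (by positivity)]
  congr 1
  ring

/-- half the surface area of the box -/
theorem slim {h : ℝ} (hh : 0 < h) :
    Tendsto (fun t : ℝ => ((volume (bx h + Metric.closedBall (0 : E3) t)).toReal -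
      (volume (bx h)).toReal) / (2 * t)) (𝓝[>] 0) (𝓝 (1 + 2 * h)) := by
  have hup : Tendsto (fun t : ℝ => h * (2 + 2 * t) + (1 + 2 * t) ^ 2) (𝓝[>] 0)
      (𝓝 (h * (2 + 2 * 0) + (1 + 2 * 0) ^ 2)) := by
    apply Tendsto.mono_left _ nhdsWithin_le_nhds
    apply Continuous.tendsto
    fun_prop
  have e : h * (2 + 2 * 0) + (1 + 2 * 0) ^ 2 = 1 + 2 * h := by ring
  rw [e] at hup
  have hv : (volume (bx h)).toReal = h := by rw [vol_bx hh, ENNReal.toReal_ofReal hh.le]
  refine tendsto_of_tendsto_of_tendsto_of_le_of_le' tendsto_const_nhds hup ?_ ?_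
  · filter_upwards [self_mem_nhdsWithin] with t ht
    have ht' : 0 < t := ht
    have h1 := ENNReal.toReal_mono (ne_top_of_le_ne_top ENNReal.ofReal_ne_top (up hh ht'))
      (low hh ht')
    rw [ENNReal.toReal_ofReal (by positivity)] at h1
    rw [le_div_iff₀ (by positivity), hv]
    linarith
  · filter_upwards [self_mem_nhdsWithin] with t ht
    have ht' : 0 < t := ht
    have h1 := ENNReal.toReal_mono ENNReal.ofReal_ne_top (up hh ht')
    rw [ENNReal.toReal_ofReal (by positivity)] at h1
    rw [div_le_iff₀ (by positivity), hv]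
    nlinarith

end Pool.Agent.Q157.BX
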